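import Pool.Agent.Helper5.KZ.Stm

/-! Piece MOD of helper5's project KZ: stably free idempotent matrices and stably free modules. -/

set_option autoImplicit false

namespace Pool.Agent.Helper20.KZ

open Pool.Agent.Helper5.KZ

theorem rl_apply {R : Type} [Ring R] {m n : Type} [Fintype m] [DecidableEq m] (M : Matrix m n R)
    (v : m → R) : Matrix.toLinearMapRight' M v = Matrix.vecMul v M :=
  Matrix.toLinearMapRight'_apply M v

/-- a linear map on row vectors is given by a matrix -/
theorem exists_mat {R : Type} [Ring R] {m n : Type} [Fintype m] [DecidableEq m]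
    (f : (m → R) →ₗ[R] (n → R)) : ∃ M : Matrix m n R, ∀ v, Matrix.vecMul v M = f v := by
  refine ⟨LinearMap.toMatrixRight' f, fun v => ?_⟩
  rw [← rl_apply]
  have h : Matrix.toLinearMapRight' (LinearMap.toMatrixRight' f) = f :=
    Matrix.toLinearMapRight'.apply_symm_apply f
  rw [h]

/-- matrices are determined by the action on row vectors -/
theorem mat_ext {R : Type} [Ring R] {m n : Type} [Fintype m] [DecidableEq m] {M N : Matrix m n R}
    (h : ∀ v, Matrix.vecMul v M = Matrix.vecMul v N) : M = N := by
  apply Matrix.toLinearMapRight'.injective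
  apply LinearMap.ext
  intro v
  rw [rl_apply, rl_apply]
  exact h _

theorem vecMul_blocks {R : Type} [Ring R] {ι : Type} [Fintype ι] [DecidableEq ι]
    (e : Matrix ι ι R) (m : ℕ) (x : ι → R) (y : Fin m → R) :
    Matrix.vecMul (Sum.elim x y) (Matrix.fromBlocks e 0 0 1) = Sum.elim (Matrix.vecMul x e) y := by
  rw [Matrix.vecMul_fromBlocks]
  simp

/-- gluing of a vector of `P` and a further vector -/
def jn {R : Type} [Ring R] {ι : Type} (P : Submodule R (ι → R)) (m : ℕ) :
    (P × (Fin m → R)) →ₗ[R] (ι ⊕ Fin m → R) where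
  toFun := fun p => Sum.elim (p.1 : ι → R) p.2
  map_add' := fun p q => by funext i; cases i <;> rfl
  map_smul' := fun c p => by funext i; cases i <;> rfl

/-- restriction to the first coordinates -/
def r1 {R : Type} [Ring R] (ι : Type) (m : ℕ) : (ι ⊕ Fin m → R) →ₗ[R] (ι → R) where
  toFun := fun v i => v (Sum.inl i)
  map_add' := fun _ _ => rfl
  map_smul' := fun _ _ => rfl

/-- restriction to the last coordinates -/
def r2 {R : Type} [Ring R] (ι : Type) (m : ℕ) : (ι ⊕ Fin m → R) →ₗ[R] (Fin m → R) where
  toFun := fun v i => v (Sum.inr i)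
  map_add' := fun _ _ => rfl
  map_smul' := fun _ _ => rfl

theorem jn_r {R : Type} [Ring R] {ι : Type} {m : ℕ} (v : ι ⊕ Fin m → R) :
    Sum.elim (r1 ι m v) (r2 ι m v) = v := by
  funext i
  cases i <;> rfl

theorem t_mod2 : S_MOD2 := by
  intro R _ ι _ _ e he P hP
  constructor
  · rintro ⟨m, r, X, Y, hXY, hYX⟩
    refine ⟨m, r, ⟨?_⟩⟩
    have hYE : ∀ z : Fin r → R, Matrix.vecMul (Matrix.vecMul z Y) (Matrix.fromBlocks e 0 0 1)
        = Matrix.vecMul z Y := by
      intro z
      rw [← hXY, ← Matrix.vecMul_vecMul, Matrix.vecMul_vecMul z Y X, hYX, Matrix.vecMul_one]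
    have hmem : ∀ z : Fin r → R, r1 ι m (Matrix.toLinearMapRight' Y z) ∈ P := by
      intro z
      rw [hP, rl_apply]
      have h1 := hYE z
      rw [← jn_r (Matrix.vecMul z Y), vecMul_blocks] at h1
      funext i
      exact congrFun h1 (Sum.inl i)
    let F : (P × (Fin m → R)) →ₗ[R] (Fin r → R) := (Matrix.toLinearMapRight' X).comp (jn P m)
    let G1 : (Fin r → R) →ₗ[R] P :=
      LinearMap.codRestrict P ((r1 ι m).comp (Matrix.toLinearMapRight' Y)) hmem
    let G2 : (Fin r → R) →ₗ[R] (Fin m → R) := (r2 ι m).comp (Matrix.toLinearMapRight' Y)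
    let G : (Fin r → R) →ₗ[R] (P × (Fin m → R)) := G1.prod G2
    have hG : ∀ z, jn P m (G z) = Matrix.vecMul z Y := by
      intro z
      have : jn P m (G z) = Sum.elim (r1 ι m (Matrix.toLinearMapRight' Y z))
        (r2 ι m (Matrix.toLinearMapRight' Y z)) := rfl
      rw [this, jn_r, rl_apply]
    have hF : ∀ p, F p = Matrix.vecMul (jn P m p) X := by
      intro p
      have : F p = Matrix.toLinearMapRight' X (jn P m p) := rfl
      rw [this, rl_apply]
    have hinj : Function.Injective (jn P m) := by
      intro p q h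
      refine Prod.ext (Subtype.ext ?_) ?_
      · funext i
        exact congrFun h (Sum.inl i)
      · funext i
        exact congrFun h (Sum.inr i)
    refine LinearEquiv.ofLinearMap F G ?_ ?_
    · apply LinearMap.ext
      intro z
      rw [LinearMap.comp_apply, hF, hG, Matrix.vecMul_vecMul, hYX, Matrix.vecMul_one]
      rfl
    · apply LinearMap.ext
      intro p
      apply hinj
      rw [LinearMap.comp_apply, hG, hF, Matrix.vecMul_vecMul, hXY]
      have : jn P m p = Sum.elim (p.1 : ι → R) p.2 := rfl
      rw [this, vecMul_blocks, (hP _).1 p.1.2]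
      rfl
  · rintro ⟨a, b, ⟨φ⟩⟩
    have hPe : ∀ v : ι ⊕ Fin a → R, Matrix.toLinearMapRight' e (r1 ι a v) ∈ P := fun x => by
      rw [hP, rl_apply, Matrix.vecMul_vecMul, he]
    let K1 : (ι ⊕ Fin a → R) →ₗ[R] P :=
      LinearMap.codRestrict P ((Matrix.toLinearMapRight' e).comp (r1 ι a)) hPe
    let K : (ι ⊕ Fin a → R) →ₗ[R] (P × (Fin a → R)) := K1.prod (r2 ι a)
    have hK : ∀ v, jn P a (K v) = Matrix.vecMul v (Matrix.fromBlocks e 0 0 1) := by
      intro v
      have h1 : jn P a (K v) = Sum.elim (Matrix.toLinearMapRight' e (r1 ι a v)) (r2 ι a v) := rfl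
      rw [h1, rl_apply, ← vecMul_blocks, jn_r]
    have hKj : ∀ p, K (jn P a p) = p := by
      intro p
      refine Prod.ext (Subtype.ext ?_) rfl
      have h1 : ((K (jn P a p)).1 : ι → R) = Matrix.toLinearMapRight' e (p.1 : ι → R) := rfl
      rw [h1, rl_apply, (hP _).1 p.1.2]
    obtain ⟨X, hX⟩ := exists_mat (R := R) (m := ι ⊕ Fin a) (n := Fin b) (φ.toLinearMap.comp K)
    obtain ⟨Y, hY⟩ := exists_mat (R := R) (m := Fin b) (n := ι ⊕ Fin a)
      ((jn P a).comp φ.symm.toLinearMap)
    have hX' : ∀ v, Matrix.vecMul v X = φ (K v) := fun v => hX v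
    have hY' : ∀ v, Matrix.vecMul v Y = jn P a (φ.symm v) := fun v => hY v
    refine ⟨a, b, X, Y, ?_, ?_⟩
    · apply mat_ext
      intro v
      rw [← Matrix.vecMul_vecMul, hX', hY', φ.symm_apply_apply, hK]
    · apply mat_ext
      intro z
      rw [← Matrix.vecMul_vecMul, hY', hX', hKj, φ.apply_symm_apply, Matrix.vecMul_one]

theorem SFm_congr {R : Type} [Ring R] {M N : Type} [AddCommGroup M] [Module R M]
    [AddCommGroup N] [Module R N] (f : M ≃ₗ[R] N) (h : SFm R M) : SFm R N := by
  obtain ⟨a, b, ⟨φ⟩⟩ := h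
  exact ⟨a, b, ⟨(LinearEquiv.prodCongr f.symm (LinearEquiv.refl R _)).trans φ⟩⟩

theorem t_mod : S_MOD := by
  intro R _
  constructor
  · intro h n e he
    let f := Matrix.toLinearMapRight' e
    have hff : ∀ x, f (f x) = f x := fun x => by
      show Matrix.toLinearMapRight' e (Matrix.toLinearMapRight' e x) = Matrix.toLinearMapRight' e x
      rw [rl_apply, rl_apply, Matrix.vecMul_vecMul, he]
    let P : Submodule R (Fin n → R) := LinearMap.range f
    have hP : ∀ x, x ∈ P ↔ Matrix.vecMul x e = x := by
      intro x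
      constructor
      · rintro ⟨y, rfl⟩
        have := hff y
        rw [← rl_apply]
        exact this
      · intro hx
        exact ⟨x, by rw [← rl_apply] at hx; exact hx⟩
    have hproj : Module.Projective R P := by
      refine Module.Projective.of_split P.subtype (LinearMap.rangeRestrict f) ?_
      apply LinearMap.ext
      intro x
      apply Subtype.ext
      have := (hP x.1).1 x.2
      rw [← rl_apply] at this
      exact this
    have hfin : Module.Finite R P := Module.Finite.range f
    exact (t_mod2 R (Fin n) e he P hP).2 (h P)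
  · intro h P _ _ _ _
    obtain ⟨n, f, hf⟩ := Module.Finite.exists_fin' R P
    obtain ⟨s, hs⟩ := Module.projective_lifting_property f LinearMap.id hf
    have hs' : ∀ x, f (s x) = x := fun x => by
      have := LinearMap.congr_fun hs x
      simpa using this
    obtain ⟨e, he⟩ := exists_mat (s.comp f)
    have hee : e * e = e := by
      apply mat_ext
      intro v
      rw [← Matrix.vecMul_vecMul, he, he]
      simp [hs']
    have hSF := h n e hee
    have hQ : ∀ x, x ∈ LinearMap.range s ↔ Matrix.vecMul x e = x := by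
      intro x
      rw [he]
      constructor
      · rintro ⟨y, rfl⟩
        simp [hs']
      · intro hx
        exact ⟨f x, hx⟩
    have h1 := (t_mod2 R (Fin n) e hee (LinearMap.range s) hQ).1 hSF
    have hinj : Function.Injective s := fun x y hxy => by
      rw [← hs' x, ← hs' y, hxy]
    exact SFm_congr (LinearEquiv.ofInjective s hinj).symm h1

end Pool.Agent.Helper20.KZ
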