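import Pool.Agent.Helper5.KZ.Stm3

/-! Piece FREEC of helper5's project KZ: vectors over `k[H]` with support in a set with finitely
many left orbits of `G` form a free `k[G]`-module of finite rank. -/

set_option autoImplicit false

open MonoidAlgebra

namespace Pool.Agent.Helper20.KZ

open Pool.Agent.Helper5.KZ

section
variable {k : Type} [DivisionRing k] {G H : Type} [Group G] [Group H] (f : G →* H)

theorem mR_coeff (hf : Function.Injective f) (c : MonoidAlgebra k G) (g : G) :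
    (mR k f c).coeff (f g) = c.coeff g := by
  show (Finsupp.mapDomain f c.coeff) (f g) = _
  exact Finsupp.mapDomain_apply hf _ _

theorem mR_coeff_out (c : MonoidAlgebra k G) (h : H) (hh : ∀ g, h ≠ f g) :
    (mR k f c).coeff h = 0 := by
  show (Finsupp.mapDomain f c.coeff) h = 0
  refine Finsupp.mapDomain_of_notMem_range _ _ ?_
  rintro ⟨g, rfl⟩
  exact hh g rfl

/-- the map with coefficients over `k[G]` -/
noncomputable def Phi (k : Type) [DivisionRing k] {G H : Type} [Group G] [Group H] (f : G →* H)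
    (κ : Type) (T : Finset H) :
    (κ × T → MonoidAlgebra k G) →ₗ[MonoidAlgebra k G] LL (mR k f) κ where
  toFun c := fun j => ∑ τ : T, mR k f (c (j, τ)) * MonoidAlgebra.single (τ : H) (1 : k)
  map_add' c d := by
    funext j
    show ∑ τ : T, mR k f ((c + d) (j, τ)) * MonoidAlgebra.single (τ : H) (1 : k) =
      ∑ τ : T, mR k f (c (j, τ)) * MonoidAlgebra.single (τ : H) (1 : k) +
      ∑ τ : T, mR k f (d (j, τ)) * MonoidAlgebra.single (τ : H) (1 : k)
    rw [← Finset.sum_add_distrib]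
    refine Finset.sum_congr rfl fun τ _ => ?_
    rw [Pi.add_apply, map_add, add_mul]
  map_smul' r c := by
    funext j
    show ∑ τ : T, mR k f ((r • c) (j, τ)) * MonoidAlgebra.single (τ : H) (1 : k) =
      mR k f r * ∑ τ : T, mR k f (c (j, τ)) * MonoidAlgebra.single (τ : H) (1 : k)
    rw [Finset.mul_sum]
    refine Finset.sum_congr rfl fun τ _ => ?_
    rw [Pi.smul_apply, smul_eq_mul, map_mul, mul_assoc]

theorem Phi_coeff {κ : Type} {T : Finset H} (c : κ × T → MonoidAlgebra k G) (j : κ) (h : H) :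
    (Phi k f κ T c j).coeff h = ∑ τ : T, (mR k f (c (j, τ))).coeff (h * (τ : H)⁻¹) := by
  show (∑ τ : T, mR k f (c (j, τ)) * MonoidAlgebra.single (τ : H) (1 : k)).coeff h = _
  rw [MonoidAlgebra.coeff_sum, Finsupp.finsetSum_apply]
  refine Finset.sum_congr rfl fun τ _ => ?_
  rw [cms, mul_one]

/-- the coefficients of the image, at the elements of the orbits -/
theorem Phi_coeff_in (hf : Function.Injective f) {κ : Type} {T : Finset H}
    (hT : ∀ τ ∈ T, ∀ τ' ∈ T, (∃ g, τ' = f g * τ) → τ = τ')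
    (c : κ × T → MonoidAlgebra k G) (j : κ) (g : G) (τ : T) :
    (Phi k f κ T c j).coeff (f g * τ) = (c (j, τ)).coeff g := by
  classical
  rw [Phi_coeff, Finset.sum_eq_single τ]
  · rw [mul_inv_cancel_right, mR_coeff f hf]
  · intro τ' _ hne
    refine mR_coeff_out f _ _ fun g' hg' => hne ?_
    have h1 : (τ : H) = f (g⁻¹ * g') * τ' := by
      rw [map_mul, map_inv, ← hg']
      group
    exact Subtype.ext (hT τ' τ'.2 τ τ.2 ⟨_, h1⟩)
  · intro h
    exact absurd (Finset.mem_univ _) h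

/-- the coefficients of the image vanish outside of the orbits -/
theorem Phi_coeff_out {κ : Type} {T : Finset H} (c : κ × T → MonoidAlgebra k G) (j : κ) (h : H)
    (hh : ∀ g, ∀ τ ∈ T, h ≠ f g * τ) : (Phi k f κ T c j).coeff h = 0 := by
  rw [Phi_coeff]
  refine Finset.sum_eq_zero fun τ _ => mR_coeff_out f _ _ fun g hg => ?_
  refine hh g τ τ.2 ?_
  rw [← hg, inv_mul_cancel_right]

/-- representatives of the orbits -/
theorem exists_T (𝓓 : Set H) (D₀ : Finset H) (h𝓓 : ∀ g, ∀ h ∈ 𝓓, f g * h ∈ 𝓓)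
    (hD : ∀ h ∈ 𝓓, ∃ g, ∃ d ∈ D₀, h = f g * d) :
    ∃ T : Finset H, (∀ τ ∈ T, τ ∈ 𝓓) ∧ (∀ τ ∈ T, ∀ τ' ∈ T, (∃ g, τ' = f g * τ) → τ = τ') ∧
      ∀ h ∈ 𝓓, ∃ g, ∃ τ ∈ T, h = f g * τ := by
  classical
  let s : Setoid H :=
    { r := fun h h' => ∃ g, h' = f g * h
      iseqv :=
        { refl := fun h => ⟨1, by simp⟩
          symm := by
            rintro h h' ⟨g, rfl⟩
            exact ⟨g⁻¹, by simp⟩
          trans := by
            rintro h h' h'' ⟨g, rfl⟩ ⟨g', rfl⟩
            exact ⟨g' * g, by simp [mul_assoc]⟩ } }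
  let rep : H → H := fun h => Quotient.out (Quotient.mk s h)
  have hrep : ∀ h, ∃ g, h = f g * rep h := fun h => Quotient.exact (Quotient.out_eq (Quotient.mk s h))
  have hrep' : ∀ h h', (∃ g, h' = f g * h) → rep h = rep h' := by
    intro h h' hh
    have : Quotient.mk s h = Quotient.mk s h' := Quotient.sound hh
    show Quotient.out (Quotient.mk s h) = Quotient.out (Quotient.mk s h')
    rw [this]
  have hmem : ∀ h ∈ 𝓓, rep h ∈ 𝓓 := by
    intro h hh
    obtain ⟨g, hg⟩ := hrep h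
    have h1 : rep h = f g⁻¹ * h := by
      rw [map_inv, eq_inv_mul_iff_mul_eq, ← hg]
    rw [h1]
    exact h𝓓 _ _ hh
  refine ⟨(D₀.filter (· ∈ 𝓓)).image rep, ?_, ?_, ?_⟩
  · intro τ hτ
    obtain ⟨d, hd, rfl⟩ := Finset.mem_image.1 hτ
    exact hmem d (Finset.mem_filter.1 hd).2
  · intro τ hτ τ' hτ' hg
    obtain ⟨d, hd, rfl⟩ := Finset.mem_image.1 hτ
    obtain ⟨d', hd', rfl⟩ := Finset.mem_image.1 hτ'
    have h1 := hrep' _ _ hg
    obtain ⟨g1, hg1⟩ := hrep d
    obtain ⟨g2, hg2⟩ := hrep d'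
    have h2 : rep (rep d) = rep d := hrep' _ _ ⟨g1, hg1⟩
    have h3 : rep (rep d') = rep d' := hrep' _ _ ⟨g2, hg2⟩
    rw [h2, h3] at h1
    exact h1
  · intro h hh
    obtain ⟨g, d, hd, rfl⟩ := hD h hh
    have hd' : d ∈ 𝓓 := by
      have := h𝓓 g⁻¹ _ hh
      rwa [map_inv, inv_mul_cancel_left] at this
    obtain ⟨g1, hg1⟩ := hrep d
    refine ⟨g * g1, rep d, Finset.mem_image.2 ⟨d, Finset.mem_filter.2 ⟨hd, hd'⟩, rfl⟩, ?_⟩
    rw [map_mul, mul_assoc, ← hg1]

end

theorem t_freec : S_FREEC := by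
  intro k _ G H _ _ f hf κ _ 𝓓 D₀ h𝓓 hD N hN
  classical
  obtain ⟨T, hT1, hT2, hT3⟩ := exists_T f 𝓓 D₀ h𝓓 hD
  have hout : ∀ (c : κ × T → MonoidAlgebra k G) (j : κ) (h : H), h ∉ 𝓓 →
      (Phi k f κ T c j).coeff h = 0 := by
    intro c j h hh
    refine Phi_coeff_out f c j h fun g τ hτ he => hh ?_
    rw [he]
    exact h𝓓 _ _ (hT1 τ hτ)
  have hmem : ∀ c : κ × T → MonoidAlgebra k G, Phi k f κ T c ∈ N := by
    intro c
    refine (hN (Phi k f κ T c)).2 ?_
    intro j h hne
    by_contra hh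
    exact hne (hout c j h hh)
  have hbij : Function.Bijective (LinearMap.codRestrict N (Phi k f κ T) hmem) := by
    constructor
    · intro c c' hcc
      have h1 : Phi k f κ T c = Phi k f κ T c' := congrArg Subtype.val hcc
      funext p
      obtain ⟨j, τ⟩ := p
      refine ma_ext fun g => ?_
      rw [← Phi_coeff_in f hf hT2 c j g τ, ← Phi_coeff_in f hf hT2 c' j g τ, h1]
    · rintro ⟨x, hx⟩
      have hx' := (hN x).1 hx
      have hinj : ∀ τ : T, Function.Injective (fun g : G => f g * (τ : H)) := fun τ g g' h =>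
        hf (mul_right_cancel h)
      refine ⟨fun p => MonoidAlgebra.ofCoeff (Finsupp.comapDomain (fun g : G => f g * (p.2 : H))
        (x p.1).coeff (hinj p.2).injOn), ?_⟩
      apply Subtype.ext
      show Phi k f κ T _ = x
      funext j
      refine ma_ext fun h => ?_
      by_cases hh : h ∈ 𝓓
      · obtain ⟨g, τ, hτ, rfl⟩ := hT3 h hh
        rw [Phi_coeff_in f hf hT2 _ j g ⟨τ, hτ⟩]
        rfl
      · rw [hout _ j h hh]
        by_contra hne
        exact hh (hx' j h fun h0 => hne h0.symm)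
  refine ⟨Fintype.card (κ × T), ⟨(LinearEquiv.ofBijective _ hbij).symm.trans
    (LinearEquiv.funCongrLeft (MonoidAlgebra k G) (MonoidAlgebra k G)
      (Fintype.equivFin (κ × T)).symm)⟩⟩

end Pool.Agent.Helper20.KZ
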